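import Pool.Agent.Lib.MP_95a70f_lc.Meas

/-! The three properties of the measure algebra that the forcing argument uses. -/

open MeasureTheory Filter Topology

namespace Pool.Agent.Lib.MP_95a70f_lc

/-- Countable chain condition, bounding, and the key bound for a sequence of bits. -/
structure RandLike (B : Type) [CompleteBooleanAlgebra B] : Prop where
  ccc : ∀ (ι : Type) (b : ι → B), (∀ i j, i ≠ j → b i ⊓ b j = ⊥) → {i | b i ≠ ⊥}.Countable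
  bdd : ∀ (p : B) (b : ℕ → ℕ → B), (∀ n, p ≤ ⨆ m, b n m) → ∃ g : ℕ → ℕ, ∀ q, q ≠ ⊥ → q ≤ p →
    ∃ r N, r ≠ ⊥ ∧ r ≤ q ∧ ∀ n, N ≤ n → r ≤ ⨆ m : {m // m ≤ g n}, b n m
  key : ∃ d : ℕ → B, ∀ e : ℕ → B, (e = d ∨ e = fun m => (d m)ᶜ) → ∀ (p : B) (b : ℕ → B),
    (∀ k, p ≤ ⨆ n, b (k + n)) → ∃ H, ∀ f : ℕ → ℕ, Monotone f →
      ∀ q, q ≠ ⊥ → q ≤ p → (∀ n, q ⊓ b n ≤ e (f n)) → LeS f H

variable {Ω : Type} [MeasurableSpace Ω] {μ : Measure Ω} [IsFiniteMeasure μ]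

namespace MAlg

theorem le_iff {a b : MAlg μ} : a ≤ b ↔ ∀ᵐ x ∂μ, x ∈ a.set → x ∈ b.set := Iff.rfl

theorem mem_inf (a b : MAlg μ) : ∀ᵐ x ∂μ, (x ∈ (a ⊓ b).set ↔ x ∈ a.set ∧ x ∈ b.set) :=
  set_mk _ (a.meas.inter b.meas)

theorem mem_compl (a : MAlg μ) : ∀ᵐ x ∂μ, (x ∈ aᶜ.set ↔ x ∉ a.set) := set_mk _ a.meas.compl

theorem mem_bot : ∀ᵐ x ∂μ, x ∉ (⊥ : MAlg μ).set :=
  (set_mk (μ := μ) _ MeasurableSet.empty).mono fun _ hx h => hx.1 h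

theorem eq_bot_iff' {a : MAlg μ} : a = ⊥ ↔ μ a.set = 0 := by
  rw [measure_eq_zero_iff_ae_notMem, ← le_bot_iff, le_iff]
  exact ⟨fun h => (h.and mem_bot).mono fun x hx hy => hx.2 (hx.1 hy),
    fun h => h.mono fun x hx hy => (hx hy).elim⟩

theorem mem_iSup {ι : Type} [Countable ι] (a : ι → MAlg μ) :
    ∀ᵐ x ∂μ, (x ∈ (⨆ i, a i).set ↔ ∃ i, x ∈ (a i).set) := by
  have hc : (Set.range a).Countable := Set.countable_range a
  have h1 : (⨆ i, a i) = _ := (isLUB_iSup (f := a)).unique (isLUB_countable hc)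
  rw [h1]
  refine (set_mk (μ := μ) _ (MeasurableSet.biUnion hc fun t _ => t.meas)).mono fun x hx => ?_
  rw [hx, Set.biUnion_range, Set.mem_iUnion]

theorem ccc (ι : Type) (b : ι → MAlg μ) (h : ∀ i j, i ≠ j → b i ⊓ b j = ⊥) :
    {i | b i ≠ ⊥}.Countable := by
  have h1 := Measure.countable_meas_pos_of_disjoint_iUnion₀ (μ := μ) (As := fun i => (b i).set)
    (fun i => (b i).meas.nullMeasurableSet) (fun i j hij => by
      have h2 := eq_bot_iff'.mp (h i j hij)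
      rw [measure_eq_zero_iff_ae_notMem] at h2
      refine measure_eq_zero_iff_ae_notMem.mpr ((h2.and (mem_inf (b i) (b j))).mono ?_)
      exact fun x hx hy => hx.1 (hx.2.2 hy))
  exact h1.mono fun i hi => pos_iff_ne_zero.mpr fun h0 => hi (eq_bot_iff'.mpr h0)

theorem bdd (p : MAlg μ) (b : ℕ → ℕ → MAlg μ) (h : ∀ n, p ≤ ⨆ m, b n m) :
    ∃ g : ℕ → ℕ, ∀ q, q ≠ ⊥ → q ≤ p →
      ∃ r N, r ≠ ⊥ ∧ r ≤ q ∧ ∀ n, N ≤ n → r ≤ ⨆ m : {m // m ≤ g n}, b n m := by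
  obtain ⟨g, hg⟩ := bound_sets (μ := μ) (β := fun n m => (b n m).set) (fun n m => (b n m).meas)
    p.meas fun n => ((le_iff.mp (h n)).and (mem_iSup (b n))).mono fun x hx hy => hx.2.1 (hx.1 hy)
  refine ⟨g, fun q hq hqp => ?_⟩
  let R : ℕ → Set Ω := fun N =>
    q.set ∩ ⋂ n : {n // N ≤ n}, (⨆ m : {m // m ≤ g n}, b n m).set
  have hR : ∀ N, MeasurableSet (R N) := fun N =>
    q.meas.inter (MeasurableSet.iInter fun n => meas _)
  have hall : ∀ᵐ x ∂μ, ∀ n, (x ∈ (⨆ m : {m // m ≤ g n}, b n m).set ↔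
      ∃ m : {m // m ≤ g n}, x ∈ (b n m).set) := ae_all_iff.mpr fun n => mem_iSup _
  have hex : ∃ N, μ (R N) ≠ 0 := by
    by_contra hcon
    push Not at hcon
    have h0 : ∀ᵐ x ∂μ, ∀ N, x ∉ R N :=
      ae_all_iff.mpr fun N => measure_eq_zero_iff_ae_notMem.mp (hcon N)
    refine hq (eq_bot_iff'.mpr (measure_eq_zero_iff_ae_notMem.mpr ?_))
    filter_upwards [h0, hall, hg, le_iff.mp hqp] with x h1 h2 h3 h4 hx
    obtain ⟨N, hN⟩ := h3 (h4 hx)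
    refine h1 N ⟨hx, Set.mem_iInter.mpr fun n => (h2 n).2 ?_⟩
    obtain ⟨m, hm, hxm⟩ := hN n n.2
    exact ⟨⟨m, hm⟩, hxm⟩
  obtain ⟨N, hN⟩ := hex
  have hs := set_mk (μ := μ) _ (hR N)
  refine ⟨mk μ _ (hR N), N, fun h0 => hN ?_, hs.mono fun x hx hy => (hx.1 hy).1, fun n hn => ?_⟩
  · have h1 := measure_eq_zero_iff_ae_notMem.mp (eq_bot_iff'.mp h0)
    exact measure_eq_zero_iff_ae_notMem.mpr ((h1.and hs).mono fun x hx hy => hx.1 (hx.2.2 hy))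
  · exact hs.mono fun x hx hy => Set.mem_iInter.mp (hx.1 hy).2 ⟨n, hn⟩

theorem key {e : ℕ → MAlg μ} (he : Mix μ fun m => (e m).set) (p : MAlg μ) (b : ℕ → MAlg μ)
    (h : ∀ k, p ≤ ⨆ n, b (k + n)) : ∃ H, ∀ f : ℕ → ℕ, Monotone f →
      ∀ q, q ≠ ⊥ → q ≤ p → (∀ n, q ⊓ b n ≤ e (f n)) → LeS f H := by
  obtain ⟨H, hH⟩ := key_sets he (fun m => (e m).meas) (fun n => (b n).meas) p.meas
    fun k => ((le_iff.mp (h k)).and (mem_iSup fun n => b (k + n))).mono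
      fun x hx hy => hx.2.1 (hx.1 hy)
  refine ⟨H, fun f hf q hq hqp hqb => hH f hf fun h0 => hq ?_⟩
  refine eq_bot_iff'.mpr (measure_eq_zero_iff_ae_notMem.mpr ?_)
  have h1 : ∀ᵐ x ∂μ, ∀ n, x ∈ q.set → x ∈ (b n).set → x ∈ (e (f n)).set :=
    ae_all_iff.mpr fun n => ((le_iff.mp (hqb n)).and (mem_inf q (b n))).mono
      fun x hx h2 h3 => hx.1 (hx.2.2 ⟨h2, h3⟩)
  filter_upwards [measure_eq_zero_iff_ae_notMem.mp h0, h1, le_iff.mp hqp] with x h2 h3 h4 hx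
  exact h2 ⟨h4 hx, fun n => h3 n hx⟩

end MAlg

theorem randLike {μ : Measure Ω} [IsProbabilityMeasure μ] {D : ℕ → Set Ω}
    (hD : ∀ m, MeasurableSet (D m)) (h1 : ∀ m, μ.real (D m) = 1 / 2)
    (h2 : ∀ m n, m ≠ n → μ.real (D m ∩ D n) = 1 / 4) : RandLike (MAlg μ) := by
  refine ⟨MAlg.ccc, MAlg.bdd, fun m => MAlg.mk μ (D m) (hD m), fun e he => ?_⟩
  have hm := mix_of_tendsto (δ := fun m => (MAlg.mk μ (D m) (hD m)).set)
    (δ' := fun m => (MAlg.mk μ (D m) (hD m))ᶜ.set) hD (mix_both hD h1 h2)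
    (fun m => MAlg.set_mk _ _) fun m =>
      ((MAlg.mem_compl _).and (MAlg.set_mk (μ := μ) _ (hD m))).mono fun x hx => by
        rw [hx.1, hx.2]
  rcases he with rfl | rfl
  · exact MAlg.key hm.1
  · exact MAlg.key hm.2

end Pool.Agent.Lib.MP_95a70f_lc
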