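import Pool.Agent.Lib.MP_e0f6ac_lc.Defs

/-!
The measure algebra as a complete Boolean algebra, and the dominating number and the strong
polarized relation written in the language of set theory (values in any Boolean-valued structure).
-/

open MeasureTheory

namespace Pool.Agent.Lib.MP_95a70f_lc

variable {Ω : Type} [MeasurableSpace Ω]

/-- Measurable sets are identified when they agree almost everywhere. -/
def aeSetoid (μ : Measure Ω) : Setoid {s : Set Ω // MeasurableSet s} where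
  r s t := ∀ᵐ x ∂μ, (x ∈ s.1 ↔ x ∈ t.1)
  iseqv := ⟨fun _ => Filter.Eventually.of_forall fun _ => Iff.rfl,
    fun h => h.mono fun _ hx => hx.symm,
    fun h h' => (h.and h').mono fun _ hx => hx.1.trans hx.2⟩

/-- The measure algebra: measurable sets modulo null sets. -/
def MAlg (μ : Measure Ω) : Type := Quotient (aeSetoid μ)

namespace MAlg

variable {μ : Measure Ω}

/-- The class of a measurable set. -/
def mk (μ : Measure Ω) (s : Set Ω) (hs : MeasurableSet s) : MAlg μ :=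
  Quotient.mk (aeSetoid μ) ⟨s, hs⟩

/-- A chosen representative of a class. -/
noncomputable def set (a : MAlg μ) : Set Ω := (Quotient.out (s := aeSetoid μ) a).1

theorem meas (a : MAlg μ) : MeasurableSet a.set := (Quotient.out (s := aeSetoid μ) a).2

theorem set_mk (s : Set Ω) (hs : MeasurableSet s) : ∀ᵐ x ∂μ, (x ∈ (mk μ s hs).set ↔ x ∈ s) :=
  Quotient.mk_out (s := aeSetoid μ) ⟨s, hs⟩

theorem ext_ae {a b : MAlg μ} (h : ∀ᵐ x ∂μ, (x ∈ a.set ↔ x ∈ b.set)) : a = b :=
  (Quotient.out_equiv_out (s := aeSetoid μ)).mp h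

/-- The Boolean operations; the order is inclusion almost everywhere. -/
noncomputable instance instBA : BooleanAlgebra (MAlg μ) where
  le a b := ∀ᵐ x ∂μ, x ∈ a.set → x ∈ b.set
  le_refl _ := Filter.Eventually.of_forall fun _ => id
  le_trans _ _ _ h h' := (h.and h').mono fun _ hx => hx.2 ∘ hx.1
  le_antisymm _ _ h h' := ext_ae ((h.and h').mono fun _ hx => ⟨hx.1, hx.2⟩)
  sup a b := mk μ (a.set ∪ b.set) (a.meas.union b.meas)
  inf a b := mk μ (a.set ∩ b.set) (a.meas.inter b.meas)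
  compl a := mk μ a.setᶜ a.meas.compl
  top := mk μ Set.univ MeasurableSet.univ
  bot := mk μ ∅ MeasurableSet.empty
  le_sup_left a b := (set_mk _ (a.meas.union b.meas)).mono fun _ hx h => hx.2 (Or.inl h)
  le_sup_right a b := (set_mk _ (a.meas.union b.meas)).mono fun _ hx h => hx.2 (Or.inr h)
  sup_le a b _ h h' := ((set_mk _ (a.meas.union b.meas)).and (h.and h')).mono
    fun _ hx hy => (hx.1.1 hy).elim hx.2.1 hx.2.2
  inf_le_left a b := (set_mk _ (a.meas.inter b.meas)).mono fun _ hx h => (hx.1 h).1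
  inf_le_right a b := (set_mk _ (a.meas.inter b.meas)).mono fun _ hx h => (hx.1 h).2
  le_inf _ b c h h' := ((set_mk _ (b.meas.inter c.meas)).and (h.and h')).mono
    fun _ hx hy => hx.1.2 ⟨hx.2.1 hy, hx.2.2 hy⟩
  le_sup_inf a b c := by
    filter_upwards [set_mk (μ := μ) _ (a.meas.union b.meas), set_mk (μ := μ) _ (a.meas.union c.meas),
      set_mk (μ := μ) _ (b.meas.inter c.meas),
      set_mk (μ := μ) _ ((mk μ _ (a.meas.union b.meas)).meas.inter (mk μ _ (a.meas.union c.meas)).meas),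
      set_mk (μ := μ) _ (a.meas.union (mk μ _ (b.meas.inter c.meas)).meas)] with x h1 h2 h3 h4 h5 hx
    have h6 := h4.1 hx
    refine h5.2 ?_
    rcases h1.1 h6.1 with h | h
    · exact Or.inl h
    · rcases h2.1 h6.2 with h' | h'
      · exact Or.inl h'
      · exact Or.inr (h3.2 ⟨h, h'⟩)
  inf_compl_le_bot a := by
    filter_upwards [set_mk (μ := μ) _ a.meas.compl,
      set_mk (μ := μ) _ (a.meas.inter (mk μ _ a.meas.compl).meas)] with x h1 h2 hx
    exact absurd (h2.1 hx).1 (h1.1 (h2.1 hx).2)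
  top_le_sup_compl a := by
    filter_upwards [set_mk (μ := μ) _ a.meas.compl,
      set_mk (μ := μ) _ (a.meas.union (mk μ _ a.meas.compl).meas)] with x h1 h2 _
    refine h2.2 ?_
    by_cases h : x ∈ a.set
    · exact Or.inl h
    · exact Or.inr (h1.2 h)
  le_top _ := (set_mk _ MeasurableSet.univ).mono fun _ hx _ => hx.2 trivial
  bot_le _ := (set_mk _ MeasurableSet.empty).mono fun _ hx h => (hx.1 h).elim
  sdiff_eq _ _ := rfl
  himp_eq _ _ := rfl

theorem le_def {a b : MAlg μ} : a ≤ b ↔ ∀ᵐ x ∂μ, x ∈ a.set → x ∈ b.set := Iff.rfl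

theorem isLUB_countable {T : Set (MAlg μ)} (hT : T.Countable) :
    IsLUB T (mk μ (⋃ t ∈ T, t.set) (MeasurableSet.biUnion hT fun t _ => t.meas)) := by
  have h0 := set_mk (μ := μ) _ (MeasurableSet.biUnion hT fun t _ => t.meas)
  refine ⟨fun t ht => h0.mono fun x hx h => hx.2 (Set.mem_biUnion ht h), fun b hb => ?_⟩
  have h1 : ∀ᵐ x ∂μ, ∀ t ∈ T, x ∈ t.set → x ∈ b.set := (ae_ball_iff hT).mpr fun t ht => hb ht
  refine (h0.and h1).mono fun x hx h => ?_
  obtain ⟨t, ht, hxt⟩ := Set.mem_iUnion₂.mp (hx.1.1 h)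
  exact hx.2 t ht hxt

theorem exists_isLUB [IsFiniteMeasure μ] (S : Set (MAlg μ)) : ∃ a, IsLUB S a := by
  let f : {T : Set (MAlg μ) // T ⊆ S ∧ T.Countable} → ENNReal := fun T => μ (⋃ t ∈ T.1, t.set)
  have : Nonempty {T : Set (MAlg μ) // T ⊆ S ∧ T.Countable} :=
    ⟨⟨∅, Set.empty_subset _, Set.countable_empty⟩⟩
  obtain ⟨u, -, -, hu, hmem⟩ :=
    (isLUB_iSup (f := f)).exists_seq_monotone_tendsto (Set.range_nonempty f)
  choose T hT using hmem
  have hc : (⋃ n, (T n).1).Countable := Set.countable_iUnion fun n => (T n).2.2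
  have hs : (⋃ n, (T n).1) ⊆ S := Set.iUnion_subset fun n => (T n).2.1
  have hm : MeasurableSet (⋃ t ∈ ⋃ n, (T n).1, set t) := MeasurableSet.biUnion hc fun t _ => t.meas
  have hge : iSup f ≤ μ (⋃ t ∈ ⋃ n, (T n).1, set t) := by
    refine le_of_tendsto' hu fun n => ?_
    rw [← hT n]
    exact measure_mono (Set.biUnion_subset_biUnion_left (Set.subset_iUnion (fun n => (T n).1) n))
  refine ⟨_, fun s hsS => ?_, fun b hb => (isLUB_countable hc).2 fun t ht => hb (hs ht)⟩
  have h1 : μ (s.set ∪ ⋃ t ∈ ⋃ n, (T n).1, set t) ≤ iSup f := by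
    have h2 := le_iSup f ⟨insert s (⋃ n, (T n).1), Set.insert_subset hsS hs, hc.insert s⟩
    simpa only [f, Set.biUnion_insert] using h2
  have h3 : μ (s.set \ ⋃ t ∈ ⋃ n, (T n).1, set t) = 0 := by
    have h4 := measure_sdiff_add_inter (μ := μ) (s.set ∪ ⋃ t ∈ ⋃ n, (T n).1, set t) hm
    rw [Set.union_sdiff_right, Set.union_inter_cancel_right] at h4
    have h5 : μ (s.set \ ⋃ t ∈ ⋃ n, (T n).1, set t) + μ (⋃ t ∈ ⋃ n, (T n).1, set t) ≤
        0 + μ (⋃ t ∈ ⋃ n, (T n).1, set t) := by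
      rw [h4, zero_add]; exact h1.trans hge
    exact le_antisymm (ENNReal.le_of_add_le_add_right (measure_ne_top _ _) h5) zero_le
  filter_upwards [set_mk (μ := μ) _ hm, measure_eq_zero_iff_ae_notMem.mp h3] with x h6 h7 hx
  refine h6.2 ?_
  by_contra h8
  exact h7 ⟨hx, h8⟩

/-- The measure algebra of a finite measure is complete. -/
noncomputable instance instCBA [IsFiniteMeasure μ] : CompleteBooleanAlgebra (MAlg μ) where
  __ := instBA
  sSup S := Classical.choose (exists_isLUB S)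
  isLUB_sSup S := Classical.choose_spec (exists_isLUB S)
  sInf S := Classical.choose (exists_isLUB (lowerBounds S))
  isGLB_sInf S := isLUB_lowerBounds.mp (Classical.choose_spec (exists_isLUB (lowerBounds S)))

end MAlg

open Pool.Agent.Lib.MP_e0f6ac_lc

variable {B : Type} [CompleteBooleanAlgebra B] (S : Str B)

/-- `a ≤ c` for ordinals. -/
def le (a c : S.N) : B := S.mem a c ⊔ S.eq a c

/-- `f` is single-valued and maps every member of `X` to a member of `Y`. -/
def tot (f X Y : S.N) : B := S.fn f ⊓ ⨅ x, S.mem x X ⇨ ⨆ y, S.mem y Y ⊓ S.app f x y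

/-- `f n ≤ g n` for all but finitely many `n`. -/
def leStar (f g : S.N) : B :=
  ⨆ k, S.mem k S.om ⊓ ⨅ n, S.mem n S.om ⊓ le S k n ⇨
    ⨅ a, ⨅ c, S.app f n a ⊓ S.app g n c ⇨ le S a c

/-- Some function maps `K` onto a dominating family of functions from `ω` to `ω`. -/
def dom (K : S.N) : B :=
  ⨆ h, S.fn h ⊓ (⨅ x, S.mem x K ⇨ ⨆ f, S.app h x f ⊓ tot S f S.om S.om) ⊓
    ⨅ g, tot S g S.om S.om ⇨ ⨆ x, ⨆ f, S.mem x K ⊓ S.app h x f ⊓ leStar S g f

/-- `K` is an ordinal: a transitive set of transitive sets. -/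
def ord (K : S.N) : B := ⨅ x, S.mem x K ⇨ S.sub x K ⊓ ⨅ y, S.mem y x ⇨ S.sub y x

/-- `K` is the dominating number: the least ordinal that enumerates a dominating family. -/
def isD (K : S.N) : B := ord S K ⊓ dom S K ⊓ ⨅ x, S.mem x K ⇨ (dom S x)ᶜ

/-- There is an injection from `K` into `A`. -/
def inj (K A : S.N) : B :=
  ⨆ j, tot S j K A ⊓ ⨅ x, ⨅ x', ⨅ y, S.app j x y ⊓ S.app j x' y ⇨ S.eq x x'

/-- `X` has arbitrarily large members in `ω`. -/
def unb (X : S.N) : B := ⨅ k, S.mem k S.om ⇨ ⨆ n, S.mem n X ⊓ le S k n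

/-- The strong polarized relation for `K × ω` and two colours; a colouring is given by the set
`c` of pairs that get the first colour. -/
def pol (K : S.N) : B :=
  ⨅ c, ⨆ A, ⨆ X, S.sub A K ⊓ inj S K A ⊓ S.sub X S.om ⊓ unb S X ⊓
    ((⨅ a, ⨅ n, S.mem a A ⊓ S.mem n X ⇨ S.app c a n) ⊔
      ⨅ a, ⨅ n, S.mem a A ⊓ S.mem n X ⇨ (S.app c a n)ᶜ)

end Pool.Agent.Lib.MP_95a70f_lc
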