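import Pool.Agent.Lib.MP_95a70f_lc.Meas

/-! The dominating number of the ground model and a family of that size of which every function
dominates only few members. -/

open Cardinal

namespace Pool.Agent.Lib.MP_95a70f_lc

/-- The data taken from the ground model. -/
structure Scale where
  ι : Type
  ord : LinearOrder ι
  e : ι → ZFSet.{0}
  K : ZFSet.{0}
  φ : ι → ℕ → ℕ
  f : ι → ℕ → ℕ
  memK : ∀ y, y ∈ K ↔ ∃ i, y = e i
  meme : ∀ i y, y ∈ e i ↔ ∃ j, j < i ∧ y = e j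
  einj : Function.Injective e
  unc : ℵ₀ < #ι
  domφ : ∀ g, ∃ i, LeS g (φ i)
  few : ∀ (i : ι) (G : {j // j < i} → ℕ → ℕ), ∃ g, ∀ j, ¬ LeS g (G j)
  mono : ∀ i, Monotone (f i)
  luz : ∀ H, #{i | LeS (f i) H} < #ι

theorem exists_scale : Nonempty Scale := by
  let A : Set Cardinal.{0} := {c | ∃ F : Set (ℕ → ℕ), (∀ g, ∃ f ∈ F, LeS g f) ∧ #F = c}
  have hA : A.Nonempty :=
    ⟨_, Set.univ, fun g => ⟨g, trivial, 0, fun _ _ => le_rfl⟩, rfl⟩
  obtain ⟨F, hF, hκ⟩ := csInf_mem hA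
  set κ := sInf A with hκdef
  have hmin : ∀ (J : Type) (G : J → ℕ → ℕ), #J < κ → ∃ g, ∀ j, ¬ LeS g (G j) := by
    intro J G hJ
    by_contra hcon
    push Not at hcon
    have h1 : #(Set.range G) ∈ A := ⟨_, fun g => by
      obtain ⟨j, hj⟩ := hcon g
      exact ⟨G j, ⟨j, rfl⟩, hj⟩, rfl⟩
    exact absurd ((csInf_le' h1).trans mk_range_le) (not_le.mpr hJ)
  have hunc : ℵ₀ < κ := by
    by_contra hcon
    rw [not_lt, ← hκ, le_aleph0_iff_set_countable] at hcon
    have := hcon.to_subtype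
    obtain ⟨H, hH⟩ := exists_bound fun a : F => a.1
    obtain ⟨f, hf, hle⟩ := hF fun n => H n + 1
    obtain ⟨N, hN⟩ := hle.trans (hH ⟨f, hf⟩)
    exact absurd (hN N le_rfl) (by simp)
  have hcard : #κ.ord.ToType = κ := mk_ord_toType κ
  obtain ⟨E⟩ : Nonempty (κ.ord.ToType ≃ F) := Cardinal.eq.mp (hcard.trans hκ.symm)
  have hfew : ∀ (i : κ.ord.ToType) (G : {j // j < i} → ℕ → ℕ), ∃ g, ∀ j, ¬ LeS g (G j) :=
    fun i G => hmin _ G (mk_Iio_toType_ord_lt i)
  choose g hg using fun i : κ.ord.ToType => hfew i fun j => (E j.1).1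
  have hdom : ∀ g, ∃ i, LeS g (E i).1 := fun g => by
    obtain ⟨f, hf, hle⟩ := hF g
    exact ⟨E.symm ⟨f, hf⟩, by simpa using hle⟩
  refine ⟨⟨κ.ord.ToType, inferInstance, fun i => (i : Ordinal).toZFSet, κ.ord.toZFSet,
    fun i => (E i).1, fun i n => (Finset.range (n + 1)).sup (g i), fun y => ?_, fun i y => ?_,
    fun i j hij => ?_, hcard.symm ▸ hunc, hdom, hfew, fun i a b hab => ?_, fun H => ?_⟩⟩
  · rw [Ordinal.mem_toZFSet_iff]
    constructor
    · rintro ⟨a, ha, rfl⟩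
      exact ⟨Ordinal.ToType.mk ⟨a, ha⟩, by simp⟩
    · rintro ⟨i, rfl⟩
      exact ⟨_, i.toOrd.2, rfl⟩
  · rw [Ordinal.mem_toZFSet_iff]
    constructor
    · rintro ⟨a, ha, rfl⟩
      refine ⟨Ordinal.ToType.mk ⟨a, ha.trans i.toOrd.2⟩, ?_, by simp⟩
      have h1 : (⟨a, ha.trans i.toOrd.2⟩ : Set.Iio κ.ord) < i.toOrd := ha
      simpa using Ordinal.ToType.mk.strictMono h1
    · rintro ⟨j, hj, rfl⟩
      exact ⟨_, Ordinal.ToType.mk.symm.strictMono hj, rfl⟩
  · exact Ordinal.ToType.mk.symm.injective (Subtype.ext (Ordinal.toZFSet_injective hij))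
  · exact Finset.sup_mono (Finset.range_subset_range.mpr (Nat.succ_le_succ hab))
  · obtain ⟨j, hj⟩ := hdom H
    have h1 : {i | LeS (fun n => (Finset.range (n + 1)).sup (g i)) H} ⊆ insert j (Set.Iio j) := by
      intro i hi
      by_contra hcon
      have hji : j < i := by
        rcases lt_trichotomy i j with h | h | h
        · exact absurd (Set.mem_insert_of_mem _ (show i ∈ Set.Iio j from h)) hcon
        · exact absurd (h ▸ Set.mem_insert _ _) hcon
        · exact h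
      refine hg i ⟨j, hji⟩ (LeS.trans (LeS.trans ⟨0, fun n _ => ?_⟩ hi) hj)
      exact Finset.le_sup (f := g i) (Finset.self_mem_range_succ n)
    refine (mk_le_mk_of_subset h1).trans_lt (mk_insert_le.trans_lt ?_)
    rw [hcard]
    exact add_lt_of_lt hunc.le (mk_Iio_toType_ord_lt j) (one_lt_aleph0.trans hunc)

end Pool.Agent.Lib.MP_95a70f_lc
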