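import Pool.Agent.Lib.MP_e0f6ac_lc.Names
import Pool.Agent.Lib.MP_95a70f_lc.Alg
import Pool.Agent.Lib.MP_95a70f_lc.Ground

/-! The forcing argument. -/

open Cardinal Pool.Agent.Lib.MP_e0f6ac_lc

namespace Pool.Agent.Lib.MP_95a70f_lc

variable {B : Type} [CompleteBooleanAlgebra B] {S : Str B} (G : Good S)
include G

theorem le_congr {b : B} {a c a' c' : S.N} (h : b ≤ le S a c) (ha : b ≤ S.eq a a')
    (hc : b ≤ S.eq c c') : b ≤ le S a' c' :=
  orE h (fun _ hb h1 => le_sup_of_le_left (G.mr (hb.trans hc) (G.ml (hb.trans ha) h1)))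
    fun _ hb h1 => le_sup_of_le_right (G.tr (G.sy (hb.trans ha)) (G.tr h1 (hb.trans hc)))

theorem le_numI {b : B} {j k : ℕ} (h : j ≤ k) : b ≤ le S (G.num j) (G.num k) := by
  rcases h.lt_or_eq with h | h
  · exact le_sup_of_le_left (G.numI h)
  · subst h; exact le_sup_of_le_right (G.rf _)

theorem le_numE {b : B} {j k : ℕ} (hb : b ≠ ⊥) (h : b ≤ le S (G.num j) (G.num k)) : j ≤ k := by
  by_contra hjk
  refine hb (le_bot_iff.mp (orE h (fun b1 _ h1 => ?_) fun b1 _ h1 => ?_))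
  · exact G.numE h1 fun i b2 hi _ h2 => G.num_eqE h2 fun e => absurd (e ▸ hi).le hjk
  · exact G.num_eqE h1 fun e => absurd e.le hjk

theorem app_congr_fun {b : B} {f f' a c : S.N} (h : b ≤ S.app f a c) (hf : b ≤ S.eq f f') :
    b ≤ S.app f' a c :=
  exE h fun z _ hb hz => exI z (le_inf (G.mr (hb.trans hf) (l1 hz)) (l2 hz))

/-- The name of a ground model function. -/
noncomputable def fN (g : ℕ → ℕ) : S.N :=
  G.mkN ℕ (fun n => G.prN (G.num n) (G.num (g n))) fun _ => ⊤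

theorem fN_app {b : B} (g : ℕ → ℕ) (n : ℕ) : b ≤ S.app (fN G g) (G.num n) (G.num (g n)) :=
  G.appI (A := fun n => G.num n) (C := fun n => G.num (g n)) n le_top

theorem fN_fn {b : B} (g : ℕ → ℕ) : b ≤ S.fn (fN G g) := by
  refine le_iInf fun a => le_iInf fun c => le_iInf fun c' => impI fun b1 _ h => ?_
  refine G.appE (l1 h) fun j b2 hb2 _ hj hc => G.appE (hb2.trans (l2 h)) fun k b3 hb3 _ hk hc' => ?_
  refine G.num_eqE (G.tr (G.sy (hb3.trans hj)) hk) fun e => ?_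
  subst e
  exact G.tr (hb3.trans hc) (G.sy hc')

theorem fN_tot {b : B} (g : ℕ → ℕ) : b ≤ tot S (fN G g) S.om S.om := by
  refine le_inf (fN_fn G g) (le_iInf fun x => impI fun b1 _ hx => G.omE hx fun j b2 _ hj => ?_)
  exact exI (G.num (g j)) (le_inf (G.omI _) (G.app_congr (fN_app G g j) (G.sy hj) (G.rf _)))

/-- A total function on `ω` takes a numeral as its value at each numeral. -/
theorem tot_num {b : B} {f : S.N} (h : b ≤ tot S f S.om S.om) (n : ℕ) :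
    b ≤ ⨆ m, S.app f (G.num n) (G.num m) := by
  refine exE (mp (allE (l2 h) (G.num n)) (G.omI n)) fun y b1 _ hy => ?_
  exact G.omE (l1 hy) fun m b2 hb2 hm => exI m (G.app_congr (hb2.trans (l2 hy)) (G.rf _) hm)

theorem leStarI {b : B} {f : S.N} {g g' : ℕ → ℕ} (hf : b ≤ S.fn f) {N : ℕ}
    (h : ∀ n, N ≤ n → b ≤ ⨆ m : {m // m ≤ g n}, S.app f (G.num n) (G.num m)) (hg : LeS g g') :
    b ≤ leStar S f (fN G g') := by
  obtain ⟨M, hM⟩ := hg
  refine exI (G.num (max N M)) (le_inf (G.omI _) (le_iInf fun x => impI fun b1 hb1 hx => ?_))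
  refine G.omE (l1 hx) fun n b2 hb2 hn => le_iInf fun a => le_iInf fun c => impI fun b3 hb3 h3 => ?_
  by_cases hb0 : b3 = ⊥
  · rw [hb0]; exact bot_le
  have hx3 : b3 ≤ S.eq x (G.num n) := hb3.trans hn
  have hle : max N M ≤ n := le_numE G hb0 (le_congr G (hb3.trans (hb2.trans (l2 hx))) (G.rf _) hx3)
  have hb : b3 ≤ b := hb3.trans (hb2.trans hb1)
  refine exE (hb.trans (h n (le_of_max_le_left hle))) fun m b4 hb4 hm => ?_
  have h1 : b4 ≤ S.eq (G.num m) a :=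
    Good.fnE (hb4.trans (hb.trans hf)) hm (G.app_congr (hb4.trans (l1 h3)) (hb4.trans hx3) (G.rf _))
  have h2 : b4 ≤ S.eq (G.num (g' n)) c :=
    Good.fnE (fN_fn G g') (fN_app G g' n) (G.app_congr (hb4.trans (l2 h3)) (hb4.trans hx3) (G.rf _))
  exact le_congr G (le_numI G (m.2.trans (hM n (le_of_max_le_right hle)))) h1 h2

theorem leStarE {b : B} {f : S.N} {g : ℕ → ℕ} (hb : b ≠ ⊥) (h : b ≤ leStar S (fN G g) f) :
    ∃ r N, r ≠ ⊥ ∧ r ≤ b ∧ ∀ n, N ≤ n → ∀ m s, s ≠ ⊥ → s ≤ r →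
      s ≤ S.app f (G.num n) (G.num m) → g n ≤ m := by
  obtain ⟨k, b1, h1, hb1, hk⟩ := ex_of_le_iSup hb h
  have h2 : b1 ≤ ⨆ N, S.eq k (G.num N) := G.omE (l1 hk) fun j _ _ hj => exI j hj
  obtain ⟨N, r, hr, hrb, hN⟩ := ex_of_le_iSup h1 h2
  refine ⟨r, N, hr, hrb.trans hb1, fun n hn m s hs hsr hm => le_numE G hs ?_⟩
  have h3 := mp (allE (hsr.trans (hrb.trans (l2 hk))) (G.num n))
    (le_inf (G.omI n) (le_congr G (le_numI G hn) (G.sy (hsr.trans hN)) (G.rf _)))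
  exact mp (allE (allE h3 (G.num (g n))) (G.num m)) (le_inf (fN_app G g n) hm)

variable (T : Scale)

theorem memK_E {b c : B} {x : S.N} (h : b ≤ S.mem x (G.chk T.K))
    (k : ∀ i b', b' ≤ b → b' ≤ S.eq x (G.chk (T.e i)) → b' ≤ c) : b ≤ c :=
  G.chkE h fun y b' hy hb hx => by
    obtain ⟨i, rfl⟩ := (T.memK y).mp hy
    exact k i b' hb hx

theorem memK_I {b : B} (i : T.ι) : b ≤ S.mem (G.chk (T.e i)) (G.chk T.K) :=
  G.chkI ((T.memK _).mpr ⟨i, rfl⟩)

theorem meme_E {b c : B} {x : S.N} {i : T.ι} (h : b ≤ S.mem x (G.chk (T.e i)))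
    (k : ∀ j b', T.ord.lt j i → b' ≤ b → b' ≤ S.eq x (G.chk (T.e j)) → b' ≤ c) : b ≤ c :=
  G.chkE h fun y b' hy hb hx => by
    obtain ⟨j, hj, rfl⟩ := (T.meme i y).mp hy
    exact k j b' hj hb hx

theorem meme_I {b : B} {i j : T.ι} (h : T.ord.lt j i) :
    b ≤ S.mem (G.chk (T.e j)) (G.chk (T.e i)) :=
  G.chkI ((T.meme i _).mpr ⟨j, h, rfl⟩)

theorem ord_K : ⊤ ≤ ord S (G.chk T.K) := by
  let _ := T.ord
  refine le_iInf fun x => impI fun b _ hx => memK_E G T hx fun i b1 _ hi => le_inf ?_ ?_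
  · refine Good.subI fun z b2 hb2 hz => meme_E G T (G.mr (hb2.trans hi) hz) fun j b3 _ _ hj => ?_
    exact G.ml (G.sy hj) (memK_I G T j)
  · refine le_iInf fun y => impI fun b2 hb2 hy => ?_
    refine meme_E G T (G.mr (hb2.trans hi) hy) fun j b3 hji hb3 hj => ?_
    refine Good.subI fun z b4 hb4 hz => meme_E G T (G.mr (hb4.trans hj) hz) fun l b5 hlj hb5 hl => ?_
    exact G.mr (G.sy (hb5.trans (hb4.trans (hb3.trans (hb2.trans hi)))))
      (G.ml (G.sy hl) (meme_I G T (lt_trans (a := l) (b := j) (c := i) hlj hji)))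

theorem dom_K (R : RandLike B) : ⊤ ≤ dom S (G.chk T.K) := by
  refine exI (G.mkN T.ι (fun i => G.prN (G.chk (T.e i)) (fN G (T.φ i))) fun _ => ⊤)
    (le_inf (le_inf ?_ ?_) ?_)
  · refine le_iInf fun a => le_iInf fun c => le_iInf fun c' => impI fun b1 _ h => ?_
    refine G.appE (l1 h) fun j b2 hb2 _ hj hc =>
      G.appE (hb2.trans (l2 h)) fun k b3 hb3 _ hk hc' => ?_
    refine G.chk_eqE (G.tr (G.sy (hb3.trans hj)) hk) fun e => ?_
    obtain rfl := T.einj e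
    exact G.tr (hb3.trans hc) (G.sy hc')
  · refine le_iInf fun x => impI fun b _ hx => memK_E G T hx fun i b1 _ hi => ?_
    refine exI (fN G (T.φ i)) (le_inf ?_ (fN_tot G _))
    exact G.app_congr (G.appI (A := fun i => G.chk (T.e i)) (C := fun i => fN G (T.φ i)) i le_top)
      (G.sy hi) (G.rf _)
  · refine le_iInf fun g => impI fun p _ hp => ?_
    obtain ⟨u, hu⟩ := R.bdd p (fun n m => S.app g (G.num n) (G.num m)) (tot_num G hp)
    obtain ⟨i, hi⟩ := T.domφ u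
    refine exI (G.chk (T.e i)) (exI (fN G (T.φ i)) (le_inf (le_inf (memK_I G T i) ?_) ?_))
    · exact G.appI (A := fun i => G.chk (T.e i)) (C := fun i => fN G (T.φ i)) i le_top
    · refine dense_le fun q hq hqp => ?_
      obtain ⟨r, N, hr, hrq, hN⟩ := hu q hq hqp
      exact ⟨r, hr, hrq, leStarI G (hrq.trans (hqp.trans (l1 hp))) hN hi⟩

theorem not_dom (R : RandLike B) (x : S.N) : S.mem x (G.chk T.K) ≤ (dom S x)ᶜ := by
  refine memK_E G T le_rfl fun i b _ hi => ?_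
  rw [le_compl_iff_disjoint_right, disjoint_iff]
  by_contra hne
  obtain ⟨h, p, hp, hpb, hh⟩ := ex_of_le_iSup hne inf_le_right
  have hxi : p ≤ S.eq x (G.chk (T.e i)) := (l1 hpb).trans hi
  have hb : ∀ j : {j // T.ord.lt j i}, ∀ n, p ≤ ⨆ m, ⨆ f,
      S.app h (G.chk (T.e j.1)) f ⊓ S.app f (G.num n) (G.num m) := by
    intro j n
    refine exE (mp (allE (l2 (l1 hh)) (G.chk (T.e j.1))) (G.mr (G.sy hxi) (meme_I G T j.2)))
      fun f b1 _ hf => ?_
    exact exE (tot_num G (l2 hf) n) fun m b2 hb2 hm =>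
      exI m (exI f (le_inf (hb2.trans (l1 hf)) hm))
  choose u hu using fun j => R.bdd p _ (hb j)
  obtain ⟨g, hg⟩ := T.few i u
  obtain ⟨y, p1, hp1, hp1p, hy⟩ := ex_of_le_iSup hp (mp (allE (l2 hh) (fN G g)) (fN_tot G g))
  obtain ⟨f, p2, hp2, hp2p, hf⟩ := ex_of_le_iSup hp1 hy
  have hp2' : p2 ≤ p := hp2p.trans hp1p
  have h3 : p2 ≤ ⨆ j : {j // T.ord.lt j i}, S.eq y (G.chk (T.e j.1)) :=
    meme_E G T (G.mr (hp2'.trans hxi) (l1 (l1 hf))) fun j _ hj _ he => exI ⟨j, hj⟩ he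
  obtain ⟨j, p3, hp3, hp3p, hj⟩ := ex_of_le_iSup hp2 h3
  obtain ⟨r, N, hr, hrp, hN⟩ := leStarE G hp3 (hp3p.trans (l2 hf))
  obtain ⟨r', N', hr', hr'r, hN'⟩ := hu j r hr (hrp.trans (hp3p.trans hp2'))
  refine hg j ⟨max N N', fun n hn => ?_⟩
  obtain ⟨m, s, hs, hsr, hm⟩ := ex_of_le_iSup hr' (hN' n (le_of_max_le_right hn))
  obtain ⟨f', s', hs', hs's, hf'⟩ := ex_of_le_iSup hs hm
  have hs3 : s' ≤ p3 := hs's.trans (hsr.trans (hr'r.trans hrp))
  have h4 : s' ≤ S.eq f' f := Good.fnE (hs3.trans (hp3p.trans (hp2'.trans (l1 (l1 hh))))) (l1 hf')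
    (G.app_congr (hs3.trans (hp3p.trans (l2 (l1 hf)))) (hs3.trans hj) (G.rf _))
  exact (hN n (le_of_max_le_left hn) m s' hs' (hs's.trans (hsr.trans hr'r))
    (app_congr_fun G (l2 hf') h4)).trans m.2

theorem isD_K (R : RandLike B) : ⊤ ≤ isD S (G.chk T.K) :=
  le_inf (le_inf (ord_K G T) (dom_K G T R))
    (le_iInf fun x => impI fun _ _ hx => hx.trans (not_dom G T R x))

/-- No injection of `K` into a set covered by a small ground model set. -/
theorem not_inj (R : RandLike B) {p : B} (hp : p ≠ ⊥) {A : S.N} (hA : p ≤ S.sub A (G.chk T.K))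
    (hj : p ≤ inj S (G.chk T.K) A) {Z : Set T.ι} (hZ : #Z < #T.ι)
    (h : ∀ i q, q ≠ ⊥ → q ≤ p → q ≤ S.mem (G.chk (T.e i)) A → i ∈ Z) : False := by
  obtain ⟨j, q, hq, hqp, hj⟩ := ex_of_le_iSup hp hj
  have hc : ∀ t : Z, {i | q ⊓ S.app j (G.chk (T.e i)) (G.chk (T.e t.1)) ≠ ⊥}.Countable := by
    intro t
    refine R.ccc _ _ fun i i' hii => le_bot_iff.mp ?_
    have h1 := mp (allE (allE (allE ((l1 (le_refl ((q ⊓ S.app j (G.chk (T.e i)) (G.chk (T.e t.1))) ⊓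
      (q ⊓ S.app j (G.chk (T.e i')) (G.chk (T.e t.1)))))).trans (inf_le_left.trans (l2 hj)))
      (G.chk (T.e i))) (G.chk (T.e i'))) (G.chk (T.e t.1)))
      (le_inf (inf_le_left.trans inf_le_right) (inf_le_right.trans inf_le_right))
    exact G.chk_eqE h1 fun e => absurd (T.einj e) hii
  have hcov : (Set.univ : Set T.ι) ⊆
      ⋃ t : Z, {i | q ⊓ S.app j (G.chk (T.e i)) (G.chk (T.e t.1)) ≠ ⊥} := by
    intro i _
    obtain ⟨y, q1, hq1, hq1q, hy⟩ :=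
      ex_of_le_iSup hq (mp (allE (l2 (l1 hj)) (G.chk (T.e i))) (memK_I G T i))
    have h2 : q1 ≤ ⨆ t, S.eq y (G.chk (T.e t)) :=
      memK_E G T (Good.subE (hq1q.trans (hqp.trans hA)) (l1 hy)) fun t _ _ ht => exI t ht
    obtain ⟨t, q2, hq2, hq2q, ht⟩ := ex_of_le_iSup hq1 h2
    have htZ := h t q2 hq2 (hq2q.trans (hq1q.trans hqp)) (G.ml ht (hq2q.trans (l1 hy)))
    refine Set.mem_iUnion.mpr ⟨⟨t, htZ⟩, fun h0 => hq2 (le_bot_iff.mp ?_)⟩
    rw [← h0]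
    exact le_inf (hq2q.trans hq1q) (G.app_congr (hq2q.trans (l2 hy)) (G.rf _) ht)
  have h3 := (mk_le_mk_of_subset hcov).trans (mk_iUnion_le _)
  rw [mk_univ] at h3
  have h4 : ⨆ t : Z, #{i | q ⊓ S.app j (G.chk (T.e i)) (G.chk (T.e t.1)) ≠ ⊥} ≤ ℵ₀ :=
    ciSup_le' fun t => le_aleph0_iff_set_countable.mpr (hc t)
  exact absurd (h3.trans (mul_le_mul_right h4 _)) (not_le.mpr (mul_lt_of_lt T.unc.le hZ T.unc))

theorem not_pol (R : RandLike B) : pol S (G.chk T.K) = ⊥ := by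
  obtain ⟨d, hd⟩ := R.key
  by_contra hne
  let c : S.N := G.mkN (T.ι × ℕ) (fun z => G.prN (G.chk (T.e z.1)) (G.num z.2))
    fun z => d (T.f z.1 z.2)
  obtain ⟨A, p0, hp0, -, hA⟩ := ex_of_le_iSup hne (iInf_le _ c)
  obtain ⟨X, p, hp, -, hX⟩ := ex_of_le_iSup hp0 hA
  have hsub := l1 (l1 (l1 (l1 hX)))
  have hinj := l2 (l1 (l1 (l1 hX)))
  have hom := l2 (l1 (l1 hX))
  have hunb := l2 (l1 hX)
  have hb : ∀ k, p ≤ ⨆ n, S.mem (G.num (k + n)) X := by
    intro k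
    refine exE (mp (allE hunb (G.num k)) (G.omI k)) fun y b1 hb1 hy => ?_
    refine G.omE (Good.subE (hb1.trans hom) (l1 hy)) fun m b2 hb2 hm => ?_
    by_cases hb0 : b2 = ⊥
    · rw [hb0]; exact bot_le
    have hkm : k ≤ m := le_numE G hb0 (le_congr G (hb2.trans (l2 hy)) (G.rf _) hm)
    refine exI (m - k) ?_
    rw [Nat.add_sub_cancel' hkm]
    exact G.ml hm (hb2.trans (l1 hy))
  have hcI : ∀ i n, d (T.f i n) ≤ S.app c (G.chk (T.e i)) (G.num n) := fun i n =>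
    G.appI (A := fun z : T.ι × ℕ => G.chk (T.e z.1)) (C := fun z => G.num z.2) (i, n) le_rfl
  have hcE : ∀ i n, S.app c (G.chk (T.e i)) (G.num n) ≤ d (T.f i n) := fun i n =>
    G.appE le_rfl fun z b1 _ hv h1 h2 => G.chk_eqE h1 fun e1 => G.num_eqE h2 fun e2 => by
      obtain rfl := T.einj e1
      subst e2
      exact hv
  refine hp (le_bot_iff.mp (orE (l2 hX) (fun q hqp hq => ?_) fun q hqp hq => ?_))
  · by_contra hq0
    rw [le_bot_iff] at hq0
    obtain ⟨H, hH⟩ := hd d (Or.inl rfl) p (fun n => S.mem (G.num n) X) hb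
    refine not_inj G T R hq0 (hqp.trans hsub) (hqp.trans hinj) (T.luz H) fun i r hr hrq hi => ?_
    refine hH _ (T.mono i) r hr (hrq.trans hqp) fun n => le_trans ?_ (hcE i n)
    exact mp (allE (allE (inf_le_left.trans (hrq.trans hq)) (G.chk (T.e i))) (G.num n))
      (le_inf (inf_le_left.trans hi) inf_le_right)
  · by_contra hq0
    rw [le_bot_iff] at hq0
    obtain ⟨H, hH⟩ := hd _ (Or.inr rfl) p (fun n => S.mem (G.num n) X) hb
    refine not_inj G T R hq0 (hqp.trans hsub) (hqp.trans hinj) (T.luz H) fun i r hr hrq hi => ?_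
    refine hH _ (T.mono i) r hr (hrq.trans hqp) fun n => le_trans ?_ (compl_le_compl (hcI i n))
    exact mp (allE (allE (inf_le_left.trans (hrq.trans hq)) (G.chk (T.e i))) (G.num n))
      (le_inf (inf_le_left.trans hi) inf_le_right)

omit G in
theorem main (R : RandLike B) :
    ⨆ K, isD (extension B) K ⊓ (pol (extension B) K)ᶜ = ⊤ := by
  obtain ⟨T⟩ := exists_scale
  refine top_le_iff.mp (exI ((goodExt B).chk T.K) (le_inf (isD_K (goodExt B) T R) ?_))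
  rw [not_pol (goodExt B) T R, compl_bot]

end Pool.Agent.Lib.MP_95a70f_lc
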