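import Pool.Agent.Results.MP_95a70f_lc.OneRandomReal

/-! Check: the product measure satisfies the hypotheses of the hand-in. -/

open MeasureTheory Pool.Agent.Lib.MP_e0f6ac_lc

namespace Pool.Agent.Lib.MP_95a70f_lc

/-- The fair coin product measure. -/
noncomputable def coin (L : Type) : Measure (L × ℕ → Bool) :=
  Measure.infinitePi fun _ => (PMF.uniformOfFintype Bool).toMeasure

instance (L : Type) : IsProbabilityMeasure (coin L) := by unfold coin; infer_instance

theorem coin_result (L : Type) [Nonempty L] :
    ⨆ K, isD (extension (MAlg (coin L))) K ⊓ (pol (extension (MAlg (coin L))) K)ᶜ = ⊤ := by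
  classical
  refine Pool.Agent.Results.MP_95a70f_lc.OneRandomReal.result L _ (fun i => ?_) (fun s y => ?_)
  · exact (measurable_pi_apply i : Measurable fun x : L × ℕ → Bool => x i)
      (show MeasurableSet ({true} : Set Bool) from MeasurableSet.singleton true)
  · have : {x : L × ℕ → Bool | ∀ i ∈ s, x i = y i} = Set.pi s (fun i => {y i}) := by
      ext x; simp [Set.mem_pi]
    rw [this, coin, Measure.infinitePi_pi _ (fun i _ => measurableSet_singleton _)]
    simp

theorem nontrivial_coin (L : Type) : (⊤ : MAlg (coin L)) ≠ ⊥ := by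
  intro h
  have h1 := MAlg.eq_bot_iff'.mp h
  have h2 : coin L (⊤ : MAlg (coin L)).set = coin L Set.univ :=
    measure_congr ((MAlg.set_mk (μ := coin L) _ MeasurableSet.univ).mono fun _ hx => propext hx)
  rw [h2] at h1
  simp at h1

end Pool.Agent.Lib.MP_95a70f_lc
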