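import Pool.Agent.Lib.MP_95a70f_lc.Defs

/-! Measure theory: mixing of fair bits, the tail lemma and the key bound. -/

open MeasureTheory Filter Topology

namespace Pool.Agent.Lib.MP_95a70f_lc

/-- Eventual domination. -/
def LeS (f g : ℕ → ℕ) : Prop := ∃ N, ∀ n, N ≤ n → f n ≤ g n

theorem LeS.trans {f g h : ℕ → ℕ} (h1 : LeS f g) (h2 : LeS g h) : LeS f h := by
  obtain ⟨N, hN⟩ := h1
  obtain ⟨M, hM⟩ := h2
  exact ⟨max N M, fun n hn => (hN n (le_of_max_le_left hn)).trans (hM n (le_of_max_le_right hn))⟩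

theorem exists_bound {α : Type} [Countable α] (G : α → ℕ → ℕ) : ∃ H, ∀ a, LeS (G a) H := by
  rcases isEmpty_or_nonempty α with h | h
  · exact ⟨id, fun a => h.elim a⟩
  obtain ⟨s, hs⟩ := exists_surjective_nat α
  refine ⟨fun k => (Finset.range (k + 1)).sup fun i => G (s i) k, fun a => ?_⟩
  obtain ⟨i, rfl⟩ := hs a
  exact ⟨i, fun n hn => Finset.le_sup (f := fun i => G (s i) n)
    (Finset.mem_range.mpr (Nat.lt_succ_of_le hn))⟩

variable {Ω : Type} [MeasurableSpace Ω] {μ : Measure Ω}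

/-- The events `δ m` take asymptotically at most half of every event. -/
def Mix (μ : Measure Ω) (δ : ℕ → Set Ω) : Prop :=
  ∀ E, MeasurableSet E → ∀ ε : ℝ, 0 < ε → ∀ᶠ m in atTop, μ.real (E ∩ δ m) ≤ μ.real E / 2 + ε

theorem mix_both [IsProbabilityMeasure μ] {D : ℕ → Set Ω} (hD : ∀ m, MeasurableSet (D m))
    (h1 : ∀ m, μ.real (D m) = 1 / 2) (h2 : ∀ m n, m ≠ n → μ.real (D m ∩ D n) = 1 / 4)
    (E : Set Ω) (hE : MeasurableSet E) :
    Tendsto (fun m => μ.real (E ∩ D m)) atTop (𝓝 (μ.real E / 2)) := by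
  let I : (s : Set Ω) → MeasurableSet s → Lp ℝ 2 μ := fun s hs =>
    indicatorConstLp 2 hs (measure_ne_top μ s) (1 : ℝ)
  have hI : ∀ s t hs ht, inner ℝ (I s hs) (I t ht) = μ.real (s ∩ t) := fun s t hs ht =>
    L2.real_inner_indicatorConstLp_one_indicatorConstLp_one hs ht _ _
  let v : ℕ → Lp ℝ 2 μ := fun m => (2 : ℝ) • I (D m) (hD m) - I Set.univ MeasurableSet.univ
  have hv : Orthonormal ℝ v := by
    rw [orthonormal_iff_ite]
    intro m n
    simp only [v, inner_sub_left, inner_sub_right, real_inner_smul_left, real_inner_smul_right, hI,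
      Set.inter_univ, Set.univ_inter, h1, probReal_univ]
    by_cases hmn : m = n
    · subst hmn
      rw [Set.inter_self, h1, if_pos rfl]; norm_num
    · rw [h2 m n hmn, if_neg hmn]; norm_num
  have hs := (hv.inner_products_summable (I E hE)).tendsto_atTop_zero
  have he : ∀ m, inner ℝ (v m) (I E hE) = 2 * μ.real (E ∩ D m) - μ.real E := by
    intro m
    simp only [v, inner_sub_left, real_inner_smul_left, hI, Set.univ_inter]
    rw [Set.inter_comm]
  simp only [he] at hs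
  have h3 : Tendsto (fun m => 2 * μ.real (E ∩ D m) - μ.real E) atTop (𝓝 0) := by
    rw [tendsto_zero_iff_norm_tendsto_zero]
    have h4 := hs.sqrt
    simpa only [Real.sqrt_sq (norm_nonneg _), Real.sqrt_zero] using h4
  have h5 := (h3.add_const (μ.real E)).div_const 2
  simp only [zero_add] at h5
  refine h5.congr fun m => by ring

theorem mix_of_tendsto [IsFiniteMeasure μ] {D δ δ' : ℕ → Set Ω} (hD : ∀ m, MeasurableSet (D m))
    (h : ∀ E, MeasurableSet E → Tendsto (fun m => μ.real (E ∩ D m)) atTop (𝓝 (μ.real E / 2)))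
    (h1 : ∀ m, ∀ᵐ x ∂μ, (x ∈ δ m ↔ x ∈ D m)) (h2 : ∀ m, ∀ᵐ x ∂μ, (x ∈ δ' m ↔ x ∉ D m)) :
    Mix μ δ ∧ Mix μ δ' := by
  refine ⟨fun E hE ε hε => ?_, fun E hE ε hε => ?_⟩
  · filter_upwards [(h E hE).eventually_lt_const (lt_add_of_pos_right _ hε)] with m hm
    have : μ.real (E ∩ δ m) = μ.real (E ∩ D m) := by
      refine measureReal_congr ((h1 m).mono fun x hx => propext ?_)
      exact and_congr_right fun _ => hx
    rw [this]; exact hm.le
  · filter_upwards [(h E hE).eventually_const_lt (sub_lt_self _ hε)] with m hm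
    have : μ.real (E ∩ δ' m) = μ.real (E \ D m) := by
      refine measureReal_congr ((h2 m).mono fun x hx => propext ?_)
      exact and_congr_right fun _ => hx
    have h3 := measureReal_sdiff_add_inter (μ := μ) (s := E) (hD m)
    rw [this]; linarith

theorem tail [IsFiniteMeasure μ] {C : Set Ω} (hC : MeasurableSet C) {U : ℕ → Set Ω}
    (hU : ∀ n, MeasurableSet (U n)) (h : ∀ᵐ x ∂μ, x ∈ C → ∃ n, x ∈ U n) {ε : ℝ} (hε : 0 < ε) :
    ∃ g, μ.real (C \ ⋃ n ∈ Finset.range g, U n) ≤ ε := by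
  have hm : ∀ g, MeasurableSet (C \ ⋃ n ∈ Finset.range g, U n) := fun g =>
    hC.diff (Finset.measurableSet_biUnion _ fun n _ => hU n)
  have ha : Antitone fun g => C \ ⋃ n ∈ Finset.range g, U n := by
    intro a b hab x hx
    refine ⟨hx.1, fun hy => hx.2 ?_⟩
    obtain ⟨n, hn, hxn⟩ := Set.mem_iUnion₂.mp hy
    exact Set.mem_iUnion₂.mpr ⟨n, Finset.mem_range.mpr ((Finset.mem_range.mp hn).trans_le hab), hxn⟩
  have ht := tendsto_measure_iInter_atTop (μ := μ) (fun g => (hm g).nullMeasurableSet) ha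
    ⟨0, measure_ne_top _ _⟩
  have h0 : μ (⋂ g, C \ ⋃ n ∈ Finset.range g, U n) = 0 := by
    rw [measure_eq_zero_iff_ae_notMem]
    refine h.mono fun x hx hy => ?_
    rw [Set.mem_iInter] at hy
    obtain ⟨n, hn⟩ := hx (hy 0).1
    exact (hy (n + 1)).2 (Set.mem_iUnion₂.mpr ⟨n, Finset.self_mem_range_succ n, hn⟩)
  rw [h0] at ht
  have h1 := (ENNReal.tendsto_toReal ENNReal.zero_ne_top).comp ht
  obtain ⟨g, hg⟩ := (h1.eventually_lt_const (by simpa using hε)).exists
  exact ⟨g, hg.le⟩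

/-- One level of the key bound. -/
theorem stepA [IsFiniteMeasure μ] {δ β : ℕ → Set Ω} (hδ : Mix μ δ)
    (hβ : ∀ n, MeasurableSet (β n)) {C : Set Ω} (hC : MeasurableSet C) (k : ℕ)
    (h : ∀ᵐ x ∂μ, x ∈ C → ∃ n, x ∈ β (k + n)) :
    ∃ G, ∀ f : ℕ → ℕ, Monotone f → G ≤ f k → ∀ X : Set Ω, X ⊆ C →
      (∀ x ∈ X, ∀ n, x ∈ β n → x ∈ δ (f n)) → μ.real X ≤ 7 / 10 * μ.real C := by
  rcases (measureReal_nonneg (μ := μ) (s := C)).eq_or_lt with h0 | h0
  · refine ⟨0, fun f _ _ X hX _ => ?_⟩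
    have := measureReal_mono (μ := μ) hX
    linarith
  let U : ℕ → Set Ω := fun n => C ∩ β (k + n)
  have hU : ∀ n, MeasurableSet (U n) := fun n => hC.inter (hβ _)
  have hE : ∀ n, MeasurableSet (disjointed U n) := MeasurableSet.disjointed hU
  have hcov : ∀ᵐ x ∂μ, x ∈ C → ∃ n, x ∈ disjointed U n := by
    refine h.mono fun x hx hxC => ?_
    obtain ⟨n, hn⟩ := hx hxC
    have : x ∈ ⋃ n, disjointed U n := by
      rw [iUnion_disjointed]; exact Set.mem_iUnion.mpr ⟨n, hxC, hn⟩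
    exact Set.mem_iUnion.mp this
  obtain ⟨g, hg⟩ := tail hC hE hcov (show 0 < μ.real C / 10 by positivity)
  have hε : 0 < μ.real C / (10 * (g + 1)) := by positivity
  have hev : ∀ᶠ m in atTop, ∀ n ∈ Finset.range g,
      μ.real (disjointed U n ∩ δ m) ≤ μ.real (disjointed U n) / 2 + μ.real C / (10 * (g + 1)) :=
    (Finset.eventually_all _).mpr fun n _ => hδ _ (hE n) _ hε
  obtain ⟨G, hG⟩ := eventually_atTop.mp hev
  refine ⟨G, fun f hf hGf X hX hXβ => ?_⟩
  have hsub : X ⊆ (⋃ n ∈ Finset.range g, disjointed U n ∩ δ (f (k + n))) ∪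
      (C \ ⋃ n ∈ Finset.range g, disjointed U n) := by
    intro x hx
    by_cases hy : x ∈ ⋃ n ∈ Finset.range g, disjointed U n
    · obtain ⟨n, hn, hxn⟩ := Set.mem_iUnion₂.mp hy
      exact Or.inl (Set.mem_iUnion₂.mpr ⟨n, hn, hxn, hXβ x hx _ (disjointed_subset U n hxn).2⟩)
    · exact Or.inr ⟨hX hx, hy⟩
  have h1 := (measureReal_mono (μ := μ) hsub).trans (measureReal_union_le _ _)
  have h2 := measureReal_biUnion_finset_le (μ := μ) (Finset.range g)
    fun n => disjointed U n ∩ δ (f (k + n))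
  have h3 : ∑ n ∈ Finset.range g, μ.real (disjointed U n ∩ δ (f (k + n))) ≤
      ∑ n ∈ Finset.range g, (μ.real (disjointed U n) / 2 + μ.real C / (10 * (g + 1))) :=
    Finset.sum_le_sum fun n hn => hG _ (hGf.trans (hf (Nat.le_add_right k n))) n hn
  have h4 : ∑ n ∈ Finset.range g, μ.real (disjointed U n) ≤ μ.real C := by
    rw [← measureReal_biUnion_finset ((disjoint_disjointed U).set_pairwise _) fun n _ => hE n]
    refine measureReal_mono (Set.iUnion₂_subset fun n _ x hx => (disjointed_subset U n hx).1)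
  rw [Finset.sum_add_distrib, ← Finset.sum_div, Finset.sum_const, Finset.card_range,
    nsmul_eq_mul] at h3
  have h5 : (g : ℝ) * (μ.real C / (10 * (g + 1))) ≤ μ.real C / 10 := by
    rw [← mul_div_assoc, div_le_div_iff₀ (by positivity) (by norm_num)]
    nlinarith
  linarith

/-- The key bound: if almost every point of `P` lies in infinitely many `β n`, then one function
dominates every monotone `f` for which `β n ⊆ δ (f n)` holds for all `n` on a positive part
of `P`. -/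
theorem key_sets [IsFiniteMeasure μ] {δ β : ℕ → Set Ω} (hδ : Mix μ δ)
    (hδm : ∀ n, MeasurableSet (δ n)) (hβ : ∀ n, MeasurableSet (β n)) {P : Set Ω}
    (hP : MeasurableSet P) (h : ∀ k, ∀ᵐ x ∂μ, x ∈ P → ∃ n, x ∈ β (k + n)) :
    ∃ H, ∀ f : ℕ → ℕ, Monotone f →
      μ {x | x ∈ P ∧ ∀ n, x ∈ β n → x ∈ δ (f n)} ≠ 0 → LeS f H := by
  let C : (Σ N : ℕ, Fin N → ℕ) → Set Ω := fun t => P ∩ ⋂ i : Fin t.1, ((β i)ᶜ ∪ δ (t.2 i))
  have hC : ∀ t, MeasurableSet (C t) := fun t =>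
    hP.inter (MeasurableSet.iInter fun i => (hβ i).compl.union (hδm _))
  have hA := fun t k => stepA hδ hβ (hC t) k ((h k).mono fun x hx hy => hx hy.1)
  choose G hG using hA
  obtain ⟨H, hH⟩ := exists_bound G
  refine ⟨H, fun f hf hpos => ?_⟩
  set X := {x | x ∈ P ∧ ∀ n, x ∈ β n → x ∈ δ (f n)} with hX
  have hXm : MeasurableSet X := by
    have : X = P ∩ ⋂ n, ((β n)ᶜ ∪ δ (f n)) := by
      ext x
      simp only [hX, Set.mem_ofPred_eq, Set.mem_inter_iff, Set.mem_iInter, Set.mem_union,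
        Set.mem_compl_iff, imp_iff_not_or]
    rw [this]
    exact hP.inter (MeasurableSet.iInter fun n => (hβ n).compl.union (hδm _))
  have hp : 0 < μ.real X := ENNReal.toReal_pos hpos (measure_ne_top _ _)
  obtain ⟨N, hN⟩ := tail (μ := μ) (hP.diff hXm) (U := fun n => β n \ δ (f n))
    (fun n => (hβ n).diff (hδm _)) (Eventually.of_forall fun x hx => by
      by_contra hcon
      refine hx.2 ⟨hx.1, fun n hn => ?_⟩
      by_contra h2
      exact hcon ⟨n, hn, h2⟩) (show 0 < μ.real X / 10 by positivity)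
  let t : Σ N : ℕ, Fin N → ℕ := ⟨N, fun i => f i⟩
  have hXC : X ⊆ C t := fun x hx => ⟨hx.1, Set.mem_iInter.mpr fun i => by
    by_cases hb : x ∈ β i
    · exact Or.inr (hx.2 i hb)
    · exact Or.inl hb⟩
  have hCX : C t ⊆ X ∪ ((P \ X) \ ⋃ n ∈ Finset.range N, β n \ δ (f n)) := by
    intro x hx
    by_cases hxX : x ∈ X
    · exact Or.inl hxX
    · refine Or.inr ⟨⟨hx.1, hxX⟩, fun hy => ?_⟩
      obtain ⟨n, hn, hxn⟩ := Set.mem_iUnion₂.mp hy
      rcases Set.mem_iInter.mp hx.2 ⟨n, Finset.mem_range.mp hn⟩ with h3 | h3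
      · exact h3 hxn.1
      · exact hxn.2 h3
  have h1 := (measureReal_mono (μ := μ) hCX).trans (measureReal_union_le _ _)
  refine LeS.trans ⟨0, fun k _ => ?_⟩ (hH t)
  by_contra hlt
  have h2 := hG t k f hf (not_le.mp hlt).le X hXC fun x hx => hx.2
  linarith

/-- Bounding: a random function is almost surely below a fixed function from some point on. -/
theorem bound_sets [IsFiniteMeasure μ] {β : ℕ → ℕ → Set Ω} (hβ : ∀ n m, MeasurableSet (β n m))
    {P : Set Ω} (hP : MeasurableSet P) (h : ∀ n, ∀ᵐ x ∂μ, x ∈ P → ∃ m, x ∈ β n m) :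
    ∃ g : ℕ → ℕ, ∀ᵐ x ∂μ, x ∈ P → ∃ N, ∀ n, N ≤ n → ∃ m, m ≤ g n ∧ x ∈ β n m := by
  have h1 := fun n => tail hP (hβ n) (h n) (show (0 : ℝ) < (1 / 2) ^ n by positivity)
  choose g hg using h1
  refine ⟨g, ?_⟩
  have h2 : ∑' n, μ (P \ ⋃ m ∈ Finset.range (g n), β n m) ≠ ⊤ := by
    refine ne_top_of_le_ne_top (summable_geometric_two.tsum_ofReal_ne_top) ?_
    refine ENNReal.tsum_le_tsum fun n => ?_
    rw [← ofReal_measureReal]
    exact ENNReal.ofReal_le_ofReal (hg n)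
  filter_upwards [ae_eventually_notMem h2] with x hx hxP
  obtain ⟨N, hN⟩ := eventually_atTop.mp hx
  refine ⟨N, fun n hn => ?_⟩
  by_contra hcon
  refine hN n hn ⟨hxP, fun hy => hcon ?_⟩
  obtain ⟨m, hm, hxm⟩ := Set.mem_iUnion₂.mp hy
  exact ⟨m, (Finset.mem_range.mp hm).le, hxm⟩

end Pool.Agent.Lib.MP_95a70f_lc
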